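import Pool.Agent.H45.XR.Defs

/-!
# Project XR (MP_5df5df_gt), module F3 (helper31): uniqueness of critical triangles
-/

set_option autoImplicit false

open MeasureTheory Set Filter Topology
open scoped Real ENNReal

namespace Pool.Agent.H45.XR

/-- Below an interior point there are points of the set. -/
theorem exists_tc_lt {C : Set ℂ} {z : ℂ} (hz : z ∈ interior C) (φ : ℝ) :
    ∃ w ∈ C, tc φ w < tc φ z := by
  have hc : Continuous fun t : ℝ => z - (t : ℂ) * (Complex.I * e φ) := by fun_prop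
  have h0 : (fun t : ℝ => z - (t : ℂ) * (Complex.I * e φ)) 0 ∈ interior C := by simpa using hz
  have hev : ∀ᶠ t : ℝ in 𝓝 0, z - (t : ℂ) * (Complex.I * e φ) ∈ interior C :=
    hc.continuousAt.eventually (isOpen_interior.mem_nhds h0)
  have hev' : ∀ᶠ t : ℝ in 𝓝[>] 0, z - (t : ℂ) * (Complex.I * e φ) ∈ interior C :=
    hev.filter_mono nhdsWithin_le_nhds
  obtain ⟨t, ht, ht0⟩ := (hev'.and self_mem_nhdsWithin).exists
  refine ⟨_, interior_subset ht, ?_⟩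
  have h1 : tc φ (Complex.I * e φ) = 1 := by
    have h := Real.sin_sq_add_cos_sq φ
    simp only [tc, Complex.mul_re, Complex.mul_im, Complex.I_re, Complex.I_im, e_re, e_im]
    linear_combination h
  rw [tc_sub, tc_mul, h1]
  have : (0 : ℝ) < t := ht0
  linarith

/-- A body without boundary segments parallel to `e φ` has a unique lowest point. -/
theorem tc_min_unique {C : Set ℂ} {φ : ℝ} (hS : NoSeg C φ) {p q : ℂ} (hp : p ∈ C) (hq : q ∈ C)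
    (hpm : ∀ z ∈ C, tc φ p ≤ tc φ z) (hqm : ∀ z ∈ C, tc φ q ≤ tc φ z) : p = q := by
  by_contra hne
  obtain ⟨z, hz, hzt⟩ := hS p hp q hq hne (le_antisymm (hpm q hq) (hqm p hp))
  obtain ⟨w, hw, hwt⟩ := exists_tc_lt hz φ
  have := hpm w hw
  linarith

/-- Change of frame. -/
theorem tc_eq_frame (φ ψ : ℝ) (z : ℂ) :
    tc ψ z = Real.cos (ψ - φ) * tc φ z - Real.sin (ψ - φ) * yc φ z := by
  have h := Real.sin_sq_add_cos_sq φ
  simp only [tc, yc, Real.cos_sub, Real.sin_sub]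
  linear_combination (Real.sin ψ * z.re - Real.cos ψ * z.im) * h

theorem e_inj {φ ψ : ℝ} (h : e φ = e ψ) (h1 : φ - ψ < 2 * π) (h2 : ψ - φ < 2 * π) : φ = ψ := by
  have hc := congrArg Complex.re h
  have hs := congrArg Complex.im h
  rw [e_re, e_re] at hc
  rw [e_im, e_im] at hs
  have h3 : Real.cos (φ - ψ) = 1 := by
    rw [Real.cos_sub, hc, hs]
    have := Real.sin_sq_add_cos_sq ψ
    nlinarith
  have := (Real.cos_eq_one_iff_of_lt_of_lt (by linarith) (by linarith)).1 h3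
  linarith

/-- The data of a critical triangle in coordinates. -/
theorem crit_data {C : Set ℂ} {φ0 φ1 φ2 : ℝ} (h01 : φ0 < φ1) (h12 : φ1 < φ2)
    (h20 : φ2 < φ0 + π) {p0 p2 p4 : ℂ} (hs0 : ∃ s : ℝ, 0 < s ∧ p2 = p4 + s * e φ0)
    (hs1 : ∃ s : ℝ, 0 < s ∧ p2 = p0 + s * e φ1) (hs2 : ∃ s : ℝ, 0 < s ∧ p4 = p0 + s * e φ2)
    (hm1 : ∀ z ∈ C, tc φ1 z ≤ tc φ1 p4) (hm2 : ∀ z ∈ C, tc φ2 p2 ≤ tc φ2 z) :
    tc φ0 p4 = tc φ0 p2 ∧ tc φ0 p0 < tc φ0 p2 ∧ yc φ0 p4 < yc φ0 p2 ∧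
    (∀ z ∈ C, (yc φ0 p2 - yc φ0 p0) * (tc φ0 z - tc φ0 p2) ≤
      (tc φ0 p2 - tc φ0 p0) * (yc φ0 z - yc φ0 p4)) ∧
    (∀ z ∈ C, (yc φ0 p4 - yc φ0 p0) * (tc φ0 p2 - tc φ0 z) ≤
      (tc φ0 p2 - tc φ0 p0) * (yc φ0 p2 - yc φ0 z)) := by
  obtain ⟨s0, hs0, e0⟩ := hs0
  obtain ⟨s1, hs1, e1⟩ := hs1
  obtain ⟨s2, hs2, e2⟩ := hs2
  have t0 : tc φ0 p2 = tc φ0 p4 := by rw [e0, tc_add, tc_mul, tc_e_self]; ring
  have y0 : yc φ0 p2 = yc φ0 p4 + s0 := by rw [e0, yc_add, yc_mul, yc_e_self]; ring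
  have t1 : tc φ0 p2 = tc φ0 p0 + s1 * Real.sin (φ1 - φ0) := by
    rw [e1, tc_add, tc_mul, tc_e]
  have y1 : yc φ0 p2 = yc φ0 p0 + s1 * Real.cos (φ1 - φ0) := by
    rw [e1, yc_add, yc_mul, yc_e]
  have t2 : tc φ0 p4 = tc φ0 p0 + s2 * Real.sin (φ2 - φ0) := by
    rw [e2, tc_add, tc_mul, tc_e]
  have y2 : yc φ0 p4 = yc φ0 p0 + s2 * Real.cos (φ2 - φ0) := by
    rw [e2, yc_add, yc_mul, yc_e]
  have ha : 0 < Real.sin (φ1 - φ0) := Real.sin_pos_of_pos_of_lt_pi (by linarith) (by linarith)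
  have hb : 0 < Real.sin (φ2 - φ0) := Real.sin_pos_of_pos_of_lt_pi (by linarith) (by linarith)
  refine ⟨t0.symm, by rw [t1]; nlinarith, by linarith, fun z hz => ?_, fun z hz => ?_⟩
  · have h := hm1 z hz
    rw [tc_eq_frame φ0 φ1 z, tc_eq_frame φ0 φ1 p4, ← t0] at h
    have hA : yc φ0 p2 - yc φ0 p0 = s1 * Real.cos (φ1 - φ0) := by linarith
    have hB : tc φ0 p2 - tc φ0 p0 = s1 * Real.sin (φ1 - φ0) := by linarith
    rw [hA, hB]
    have := mul_le_mul_of_nonneg_left h hs1.le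
    nlinarith
  · have h := hm2 z hz
    rw [tc_eq_frame φ0 φ2 z, tc_eq_frame φ0 φ2 p2] at h
    have hA : yc φ0 p4 - yc φ0 p0 = s2 * Real.cos (φ2 - φ0) := by linarith
    have hB : tc φ0 p2 - tc φ0 p0 = s2 * Real.sin (φ2 - φ0) := by linarith
    rw [hA, hB]
    have := mul_le_mul_of_nonneg_left h hs2.le
    nlinarith

/-- The algebraic core. -/
theorem crit_alg {T T' Y2 Y4 Y2' Y4' : ℝ} (hT : 0 < T) (hT' : 0 < T') (hl : Y4 < Y2)
    (hl' : Y4' < Y2') (h1 : Y2 * (T' - T) ≤ T * (Y4' - Y4)) (h2 : Y4 * (T - T') ≤ T * (Y2 - Y2'))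
    (h1' : Y2' * (T - T') ≤ T' * (Y4 - Y4')) (h2' : Y4' * (T' - T) ≤ T' * (Y2' - Y2)) :
    T = T' ∧ Y2 = Y2' ∧ Y4 = Y4' := by
  have k1 : T * (Y2' - Y4') ≤ (Y2 - Y4) * (2 * T - T') := by nlinarith
  have k2 : T' * (Y2 - Y4) ≤ (Y2' - Y4') * (2 * T' - T) := by nlinarith
  have l : 0 < Y2 - Y4 := by linarith
  have l' : 0 < Y2' - Y4' := by linarith
  have m1 : 0 < T * (Y2' - Y4') := mul_pos hT l'
  have m2 : 0 < T' * (Y2 - Y4) := mul_pos hT' l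
  have k3 := mul_le_mul k1 k2 m2.le (m1.le.trans k1)
  have k4 : T * T' * ((Y2 - Y4) * (Y2' - Y4')) ≤
      (2 * T - T') * (2 * T' - T) * ((Y2 - Y4) * (Y2' - Y4')) := by nlinarith
  have k5 : T * T' ≤ (2 * T - T') * (2 * T' - T) := le_of_mul_le_mul_right k4 (mul_pos l l')
  have k6 : T = T' := by nlinarith [sq_nonneg (T - T'), sq_eq_zero_iff.1 (le_antisymm (by nlinarith : (T - T') ^ 2 ≤ 0) (sq_nonneg _))]
  subst k6
  have k7 : 0 ≤ T * (Y4' - Y4) := by nlinarith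
  have k8 : 0 ≤ T * (Y2 - Y2') := by nlinarith
  have k9 : 0 ≤ T * (Y4 - Y4') := by nlinarith
  have k10 : 0 ≤ T * (Y2' - Y2) := by nlinarith
  have k7 := nonneg_of_mul_nonneg_right k7 hT
  have k8 := nonneg_of_mul_nonneg_right k8 hT
  have k9 := nonneg_of_mul_nonneg_right k9 hT
  have k10 := nonneg_of_mul_nonneg_right k10 hT
  exact ⟨rfl, by linarith, by linarith⟩

/-- F3 : at most one critical triangle of given height. -/
theorem crit_unique {K : Set (ℂ × ℝ)} (hK : Body3 K) {h : ℝ} (hh : h ∈ Hts K)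
    {φ φ' : Fin 3 → ℝ} (h0 : φ 0 = φ' 0) (hS : NoSeg (sec K h) (φ 0))
    (ho : φ 0 < φ 1 ∧ φ 1 < φ 2 ∧ φ 2 < φ 0 + π) (ho' : φ' 0 < φ' 1 ∧ φ' 1 < φ' 2 ∧ φ' 2 < φ' 0 + π)
    (hc : Crit K φ h) (hc' : Crit K φ' h) : φ 1 = φ' 1 ∧ φ 2 = φ' 2 := by
  obtain ⟨p0, hp0, p2, hp2, p4, hp4, s0, s1, s2, m0, m1, m2⟩ := hc
  obtain ⟨q0, hq0, q2, hq2, q4, hq4, s0', s1', s2', m0', m1', m2'⟩ := hc'
  rw [← h0] at m0' s0'
  have e0 : p0 = q0 := tc_min_unique hS hp0 hq0 m0 m0'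
  subst e0
  obtain ⟨d1, d2, d3, d4, d5⟩ := crit_data ho.1 ho.2.1 ho.2.2 s0 s1 s2 m1 m2
  obtain ⟨d1', d2', d3', d4', d5'⟩ := crit_data (C := sec K h) (φ0 := φ 0) (by rw [h0]; exact ho'.1)
    ho'.2.1 (by rw [h0]; exact ho'.2.2) s0' s1' s2' m1' m2'
  have A := crit_alg (T := tc (φ 0) p2 - tc (φ 0) p0) (T' := tc (φ 0) q2 - tc (φ 0) p0)
    (Y2 := yc (φ 0) p2 - yc (φ 0) p0) (Y4 := yc (φ 0) p4 - yc (φ 0) p0)
    (Y2' := yc (φ 0) q2 - yc (φ 0) p0) (Y4' := yc (φ 0) q4 - yc (φ 0) p0)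
    (by linarith) (by linarith) (by linarith) (by linarith)
    (by have := d4 q4 hq4; rw [d1'] at this; linarith)
    (by have := d5 q2 hq2; linarith)
    (by have := d4' p4 hp4; rw [d1] at this; linarith)
    (by have := d5' p2 hp2; linarith)
  have e2 : p2 = q2 := by
    rw [decomp (φ 0) p2, decomp (φ 0) q2, show yc (φ 0) p2 = yc (φ 0) q2 by linarith [A.2.1],
      show tc (φ 0) p2 = tc (φ 0) q2 by linarith [A.1]]
  have e4 : p4 = q4 := by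
    rw [decomp (φ 0) p4, decomp (φ 0) q4, show yc (φ 0) p4 = yc (φ 0) q4 by linarith [A.2.2],
      show tc (φ 0) p4 = tc (φ 0) q4 by rw [d1, d1']; linarith [A.1]]
  have key : ∀ (z w : ℂ) (a b : ℝ), (∃ s : ℝ, 0 < s ∧ z = w + s * e a) →
      (∃ s : ℝ, 0 < s ∧ z = w + s * e b) → a - b < 2 * π → b - a < 2 * π → a = b := by
    rintro z w a b ⟨s, hs, rfl⟩ ⟨t, ht, h⟩ hab hba
    have h1 : (s : ℂ) * e a = t * e b := add_left_cancel h
    have h2 : s = t := by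
      have := congrArg norm h1
      rwa [norm_mul, norm_mul, norm_e, norm_e, mul_one, mul_one, Complex.norm_real,
        Complex.norm_real, Real.norm_of_nonneg hs.le, Real.norm_of_nonneg ht.le] at this
    subst h2
    have h3 : e a = e b := mul_left_cancel₀ (by exact_mod_cast hs.ne') h1
    exact e_inj h3 hab hba
  have hpi := Real.pi_pos
  constructor
  · exact key p2 p0 _ _ s1 (by rw [e2]; exact s1') (by linarith) (by linarith)
  · exact key p4 p0 _ _ s2 (by rw [e4]; exact s2') (by linarith) (by linarith)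

end Pool.Agent.H45.XR
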