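import Pool.Agent.H20.XR.H0
import Pool.Agent.H70.XR.G
import Pool.Agent.H94.XR.F1
import Pool.Agent.H94.XR.F2
import Pool.Agent.H31.XR.F3

/-!
# Project XR (MP_5df5df_gt), module F (helper31): the set of critical directions is meagre
-/

set_option autoImplicit false

open MeasureTheory Set Filter Topology
open scoped Real ENNReal

namespace Pool.Agent.H45.XR

/-- Sections vary lower semicontinuously. -/
theorem sec_approx {K : Set (ℂ × ℝ)} (hK : Body3 K) {h : ℝ} (hh : h ∈ Hts K) {z : ℂ}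
    (hz : z ∈ sec K h) {u : ℕ → ℝ} (hu : Tendsto u atTop (𝓝 h)) :
    ∃ w : ℕ → ℂ, (∀ᶠ n in atTop, w n ∈ sec K (u n)) ∧ Tendsto w atTop (𝓝 z) := by
  obtain ⟨a, b, hab, hI, -⟩ := Hts_eq hK
  rw [hI] at hh
  obtain ⟨h1, hh1, hh1'⟩ := exists_between hh.2
  obtain ⟨h2, hh2, hh2'⟩ := exists_between hh.1
  have m1 : h1 ∈ Hts K := by rw [hI]; exact ⟨hh.1.trans hh1, hh1'⟩
  have m2 : h2 ∈ Hts K := by rw [hI]; exact ⟨hh2, hh2'.trans hh.2⟩
  obtain ⟨w1, hw1⟩ := m1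
  obtain ⟨w2, hw2⟩ := m2
  have hw1 := interior_subset hw1
  have hw2 := interior_subset hw2
  have hzK : (z, h) ∈ K := hz
  have d1 : 0 < h1 - h := by linarith
  have d2 : 0 < h - h2 := by linarith
  let f : ℝ → ℂ := fun t => z + ((max (t - h) 0 / (h1 - h) : ℝ) : ℂ) * (w1 - z) +
    ((max (h - t) 0 / (h - h2) : ℝ) : ℂ) * (w2 - z)
  have hf : Continuous f := by fun_prop
  have hf0 : f h = z := by simp [f]
  have hmem : ∀ t ∈ Icc h2 h1, (f t, t) ∈ K := by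
    intro t ht
    rcases le_total h t with hht | hht
    · have e1 : max (t - h) 0 = t - h := max_eq_left (by linarith)
      have e2 : max (h - t) 0 = 0 := max_eq_right (by linarith)
      have hc := hK.conv hzK hw1 (a := 1 - (t - h) / (h1 - h)) (b := (t - h) / (h1 - h))
        (by rw [sub_nonneg, div_le_one d1]; linarith [ht.2]) (by positivity) (by ring)
      convert hc using 1
      refine Prod.ext ?_ ?_
      · simp only [f, e1, e2, Prod.fst_add, Prod.smul_fst, Complex.real_smul]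
        push_cast
        ring
      · simp only [Prod.snd_add, Prod.smul_snd, smul_eq_mul]
        field_simp
        ring
    · have e1 : max (t - h) 0 = 0 := max_eq_right (by linarith)
      have e2 : max (h - t) 0 = h - t := max_eq_left (by linarith)
      have hc := hK.conv hzK hw2 (a := 1 - (h - t) / (h - h2)) (b := (h - t) / (h - h2))
        (by rw [sub_nonneg, div_le_one d2]; linarith [ht.1]) (by positivity) (by ring)
      convert hc using 1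
      refine Prod.ext ?_ ?_
      · simp only [f, e1, e2, Prod.fst_add, Prod.smul_fst, Complex.real_smul]
        push_cast
        ring
      · simp only [Prod.snd_add, Prod.smul_snd, smul_eq_mul]
        field_simp
        ring
  refine ⟨fun n => f (u n), ?_, ?_⟩
  · filter_upwards [hu.eventually (Icc_mem_nhds hh2' hh1)] with n hn
    exact hmem _ hn
  · have := (hf.tendsto h).comp hu
    rwa [hf0] at this

/-- The width of the section is at most twice the height of the critical triangle. -/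
theorem crit_width {C : Set ℂ} {φ0 φ1 φ2 : ℝ} (h01 : φ0 < φ1) (h12 : φ1 < φ2)
    (h20 : φ2 < φ0 + π) {p0 p2 p4 : ℂ} (hs0 : ∃ s : ℝ, 0 < s ∧ p2 = p4 + s * e φ0)
    (hs1 : ∃ s : ℝ, 0 < s ∧ p2 = p0 + s * e φ1) (hs2 : ∃ s : ℝ, 0 < s ∧ p4 = p0 + s * e φ2)
    (hm1 : ∀ z ∈ C, tc φ1 z ≤ tc φ1 p4) (hm2 : ∀ z ∈ C, tc φ2 p2 ≤ tc φ2 z) :
    ∀ z ∈ C, tc φ0 z - tc φ0 p0 ≤ 2 * (tc φ0 p2 - tc φ0 p0) := by
  obtain ⟨d1, d2, d3, d4, d5⟩ := crit_data h01 h12 h20 hs0 hs1 hs2 hm1 hm2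
  intro z hz
  have k1 := d4 z hz
  have k2 := d5 z hz
  have k3 : (yc φ0 p2 - yc φ0 p4) * (tc φ0 z - tc φ0 p0) ≤
      (yc φ0 p2 - yc φ0 p4) * (2 * (tc φ0 p2 - tc φ0 p0)) := by nlinarith
  exact le_of_mul_le_mul_left k3 (by linarith)

theorem tendsto_tc {a : ℕ → ℝ} {a' : ℝ} {z : ℕ → ℂ} {z' : ℂ} (ha : Tendsto a atTop (𝓝 a'))
    (hz : Tendsto z atTop (𝓝 z')) : Tendsto (fun n => tc (a n) (z n)) atTop (𝓝 (tc a' z')) := by
  unfold tc
  exact (((Real.continuous_cos.tendsto _).comp ha).mul ((Complex.continuous_im.tendsto _).comp hz)).sub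
    (((Real.continuous_sin.tendsto _).comp ha).mul ((Complex.continuous_re.tendsto _).comp hz))

theorem tendsto_yc {a : ℕ → ℝ} {a' : ℝ} {z : ℕ → ℂ} {z' : ℂ} (ha : Tendsto a atTop (𝓝 a'))
    (hz : Tendsto z atTop (𝓝 z')) : Tendsto (fun n => yc (a n) (z n)) atTop (𝓝 (yc a' z')) := by
  unfold yc
  exact (((Real.continuous_cos.tendsto _).comp ha).mul ((Complex.continuous_re.tendsto _).comp hz)).add
    (((Real.continuous_sin.tendsto _).comp ha).mul ((Complex.continuous_im.tendsto _).comp hz))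

/-- The relation `p = q + s e φ`, `s > 0`, in coordinates. -/
theorem rel_iff (φ : ℝ) (p q : ℂ) :
    (∃ s : ℝ, 0 < s ∧ p = q + s * e φ) ↔ tc φ (p - q) = 0 ∧ 0 < yc φ (p - q) := by
  constructor
  · rintro ⟨s, hs, rfl⟩
    rw [add_sub_cancel_left, tc_mul, yc_mul, tc_e_self, yc_e_self]
    exact ⟨by ring, by linarith⟩
  · rintro ⟨h1, h2⟩
    refine ⟨yc φ (p - q), h2, ?_⟩
    have := decomp φ (p - q)
    rw [h1] at this
    simp only [Complex.ofReal_zero, zero_mul, add_zero] at this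
    rw [← this]
    ring

/-- The closed pieces. -/
def ZZ (K : Set (ℂ × ℝ)) (a b κ : ℝ) : Set (Fin 3 → ℝ) :=
  {φ | φ 0 + κ ≤ φ 1 ∧ φ 1 + κ ≤ φ 2 ∧ φ 2 + κ ≤ φ 0 + π ∧ ∃ h ∈ Icc a b, Crit K φ h}

theorem ZZ_closed {K : Set (ℂ × ℝ)} (hK : Body3 K) {a b κ : ℝ} (hκ : 0 < κ)
    (hab : Icc a b ⊆ Hts K) : IsClosed (ZZ K a b κ) := by
  apply IsSeqClosed.isClosed
  intro F φ hF hφ
  have hφi : ∀ i, Tendsto (fun n => F n i) atTop (𝓝 (φ i)) := fun i => (continuous_apply i).tendsto φ |>.comp hφ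
  have s01 : φ 0 + κ ≤ φ 1 := le_of_tendsto_of_tendsto' ((hφi 0).add_const κ) (hφi 1) fun n => (hF n).1
  have s12 : φ 1 + κ ≤ φ 2 := le_of_tendsto_of_tendsto' ((hφi 1).add_const κ) (hφi 2) fun n => (hF n).2.1
  have s20 : φ 2 + κ ≤ φ 0 + π :=
    le_of_tendsto_of_tendsto' ((hφi 2).add_const κ) ((hφi 0).add_const π) fun n => (hF n).2.2.1
  refine ⟨s01, s12, s20, ?_⟩
  choose h hh hc using fun n => (hF n).2.2.2
  choose p0 hp0 p2 hp2 p4 hp4 r0 r1 r2 m0 m1 m2 using hc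
  have hcpt : IsCompact (K ×ˢ (K ×ˢ K)) := hK.cpt.prod (hK.cpt.prod hK.cpt)
  obtain ⟨⟨P0, P2, P4⟩, ⟨hP0, hP2, hP4⟩, g, hg, hlim⟩ := hcpt.tendsto_subseq
    (x := fun n => ((p0 n, h n), (p2 n, h n), (p4 n, h n))) fun n => ⟨hp0 n, hp2 n, hp4 n⟩
  have l0 : Tendsto (fun n => (p0 (g n), h (g n))) atTop (𝓝 P0) := (continuous_fst.tendsto _).comp hlim
  have l24 : Tendsto (fun n => ((p2 (g n), h (g n)), (p4 (g n), h (g n)))) atTop (𝓝 (P2, P4)) :=
    (continuous_snd.tendsto _).comp hlim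
  have l2 : Tendsto (fun n => (p2 (g n), h (g n))) atTop (𝓝 P2) := (continuous_fst.tendsto _).comp l24
  have l4 : Tendsto (fun n => (p4 (g n), h (g n))) atTop (𝓝 P4) := (continuous_snd.tendsto _).comp l24
  obtain ⟨q0, h0⟩ := P0
  obtain ⟨q2, h2⟩ := P2
  obtain ⟨q4, h4⟩ := P4
  have k0 : Tendsto (fun n => p0 (g n)) atTop (𝓝 q0) := (continuous_fst.tendsto _).comp l0
  have k2 : Tendsto (fun n => p2 (g n)) atTop (𝓝 q2) := (continuous_fst.tendsto _).comp l2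
  have k4 : Tendsto (fun n => p4 (g n)) atTop (𝓝 q4) := (continuous_fst.tendsto _).comp l4
  have j0 : Tendsto (fun n => h (g n)) atTop (𝓝 h0) := (continuous_snd.tendsto _).comp l0
  have j2 : Tendsto (fun n => h (g n)) atTop (𝓝 h2) := (continuous_snd.tendsto _).comp l2
  have j4 : Tendsto (fun n => h (g n)) atTop (𝓝 h4) := (continuous_snd.tendsto _).comp l4
  obtain rfl := tendsto_nhds_unique j2 j0
  obtain rfl := tendsto_nhds_unique j4 j2
  have hhI : h4 ∈ Icc a b := isClosed_Icc.mem_of_tendsto j4 (Eventually.of_forall fun n => hh (g n))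
  have hhH : h4 ∈ Hts K := hab hhI
  have hφg : ∀ i, Tendsto (fun n => F (g n) i) atTop (𝓝 (φ i)) := fun i => (hφi i).comp hg.tendsto_atTop
  -- angles of the members
  have ang : ∀ n, F n 0 < F n 1 ∧ F n 1 < F n 2 ∧ F n 2 < F n 0 + π := fun n =>
    ⟨by linarith [(hF n).1], by linarith [(hF n).2.1], by linarith [(hF n).2.2.1]⟩
  -- limit inequalities
  have M0 : ∀ z ∈ sec K h4, tc (φ 0) q0 ≤ tc (φ 0) z := by
    intro z hz
    obtain ⟨w, hw, hwz⟩ := sec_approx hK hhH hz j4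
    exact le_of_tendsto_of_tendsto (tendsto_tc (hφg 0) k0) (tendsto_tc (hφg 0) hwz)
      (hw.mono fun n hn => m0 _ _ hn)
  have M1 : ∀ z ∈ sec K h4, tc (φ 1) z ≤ tc (φ 1) q4 := by
    intro z hz
    obtain ⟨w, hw, hwz⟩ := sec_approx hK hhH hz j4
    exact le_of_tendsto_of_tendsto (tendsto_tc (hφg 1) hwz) (tendsto_tc (hφg 1) k4)
      (hw.mono fun n hn => m1 _ _ hn)
  have M2 : ∀ z ∈ sec K h4, tc (φ 2) q2 ≤ tc (φ 2) z := by
    intro z hz
    obtain ⟨w, hw, hwz⟩ := sec_approx hK hhH hz j4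
    exact le_of_tendsto_of_tendsto (tendsto_tc (hφg 2) k2) (tendsto_tc (hφg 2) hwz)
      (hw.mono fun n hn => m2 _ _ hn)
  have Wd : ∀ z ∈ sec K h4, tc (φ 0) z - tc (φ 0) q0 ≤ 2 * (tc (φ 0) q2 - tc (φ 0) q0) := by
    intro z hz
    obtain ⟨w, hw, hwz⟩ := sec_approx hK hhH hz j4
    refine le_of_tendsto_of_tendsto ((tendsto_tc (hφg 0) hwz).sub (tendsto_tc (hφg 0) k0))
      (((tendsto_tc (hφg 0) k2).sub (tendsto_tc (hφg 0) k0)).const_mul 2)
      (hw.mono fun n hn => ?_)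
    exact crit_width (ang (g n)).1 (ang (g n)).2.1 (ang (g n)).2.2 (r0 _) (r1 _) (r2 _) (m1 _) (m2 _)
      _ hn
  have T0 : tc (φ 0) (q2 - q4) = 0 := by
    refine tendsto_nhds_unique (tendsto_tc (hφg 0) (k2.sub k4)) ?_
    refine tendsto_const_nhds.congr fun n => ?_
    exact (((rel_iff _ _ _).1 (r0 (g n))).1).symm
  have T1 : tc (φ 1) (q2 - q0) = 0 := by
    refine tendsto_nhds_unique (tendsto_tc (hφg 1) (k2.sub k0)) ?_
    refine tendsto_const_nhds.congr fun n => ?_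
    exact (((rel_iff _ _ _).1 (r1 (g n))).1).symm
  have T2 : tc (φ 2) (q4 - q0) = 0 := by
    refine tendsto_nhds_unique (tendsto_tc (hφg 2) (k4.sub k0)) ?_
    refine tendsto_const_nhds.congr fun n => ?_
    exact (((rel_iff _ _ _).1 (r2 (g n))).1).symm
  -- the triangle does not degenerate
  have hX : 0 < tc (φ 0) (q2 - q0) := by
    rw [tc_sub]
    obtain ⟨z, hz⟩ := hhH
    have hzi : z ∈ interior (sec K h4) := by
      rw [interior_sec hK ⟨z, hz⟩]; exact hz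
    obtain ⟨w, hw, hwt⟩ := exists_tc_lt hzi (φ 0)
    have a1 := M0 w hw
    have a2 := Wd z (interior_subset hzi)
    linarith
  have hpi := Real.pi_pos
  have sn1 : 0 < Real.sin (φ 1 - φ 0) := Real.sin_pos_of_pos_of_lt_pi (by linarith) (by linarith)
  have sn2 : 0 < Real.sin (φ 2 - φ 0) := Real.sin_pos_of_pos_of_lt_pi (by linarith) (by linarith)
  have sn12 : 0 < Real.sin (φ 2 - φ 1) := Real.sin_pos_of_pos_of_lt_pi (by linarith) (by linarith)
  have E1 : q2 - q0 = (yc (φ 1) (q2 - q0) : ℂ) * e (φ 1) := by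
    have := decomp (φ 1) (q2 - q0)
    rw [T1] at this
    simpa using this
  have E2 : q4 - q0 = (yc (φ 2) (q4 - q0) : ℂ) * e (φ 2) := by
    have := decomp (φ 2) (q4 - q0)
    rw [T2] at this
    simpa using this
  have E0 : q2 - q4 = (yc (φ 0) (q2 - q4) : ℂ) * e (φ 0) := by
    have := decomp (φ 0) (q2 - q4)
    rw [T0] at this
    simpa using this
  have Y1 : 0 < yc (φ 1) (q2 - q0) := by
    have : tc (φ 0) (q2 - q0) = yc (φ 1) (q2 - q0) * Real.sin (φ 1 - φ 0) := by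
      conv_lhs => rw [E1]
      rw [tc_mul, tc_e]
    rw [this] at hX
    exact pos_of_mul_pos_left hX sn1.le
  have hX4 : tc (φ 0) (q4 - q0) = tc (φ 0) (q2 - q0) := by
    have : q4 - q0 = (q2 - q0) - (q2 - q4) := by ring
    rw [this, tc_sub, T0, sub_zero]
  have Y2 : 0 < yc (φ 2) (q4 - q0) := by
    have : tc (φ 0) (q4 - q0) = yc (φ 2) (q4 - q0) * Real.sin (φ 2 - φ 0) := by
      conv_lhs => rw [E2]
      rw [tc_mul, tc_e]
    rw [← hX4, this] at hX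
    exact pos_of_mul_pos_left hX sn2.le
  have Y0 : 0 < yc (φ 0) (q2 - q4) := by
    have a1 : tc (φ 1) (q2 - q4) = yc (φ 0) (q2 - q4) * Real.sin (φ 0 - φ 1) := by
      conv_lhs => rw [E0]
      rw [tc_mul, tc_e]
    have a2 : tc (φ 1) (q2 - q4) = - (yc (φ 2) (q4 - q0) * Real.sin (φ 2 - φ 1)) := by
      have : q2 - q4 = (q2 - q0) - (q4 - q0) := by ring
      rw [this, tc_sub, T1]
      conv_lhs => rw [E2]
      rw [tc_mul, tc_e]
      ring
    have a3 : Real.sin (φ 0 - φ 1) = - Real.sin (φ 1 - φ 0) := by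
      rw [← Real.sin_neg]; ring_nf
    rw [a3] at a1
    have a4 : yc (φ 0) (q2 - q4) * Real.sin (φ 1 - φ 0) = yc (φ 2) (q4 - q0) * Real.sin (φ 2 - φ 1) := by
      linarith
    have a5 : 0 < yc (φ 0) (q2 - q4) * Real.sin (φ 1 - φ 0) := by rw [a4]; positivity
    exact pos_of_mul_pos_left a5 sn1.le
  exact ⟨h4, hhI, q0, hP0, q2, hP2, q4, hP4, (rel_iff _ _ _).2 ⟨T0, Y0⟩, (rel_iff _ _ _).2 ⟨T1, Y1⟩,
    (rel_iff _ _ _).2 ⟨T2, Y2⟩, M0, M1, M2⟩

theorem cot_sub_cot {a b : ℝ} (ha : 0 < Real.sin a) (hb : 0 < Real.sin b) :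
    Real.cot a - Real.cot b = Real.sin (b - a) / (Real.sin a * Real.sin b) := by
  rw [Real.cot_eq_cos_div_sin, Real.cot_eq_cos_div_sin, Real.sin_sub]
  field_simp

theorem cot_pi_half_sub (y : ℝ) : Real.cot (π / 2 - Real.arctan y) = y := by
  rw [Real.cot_eq_cos_div_sin, Real.cos_pi_div_two_sub, Real.sin_pi_div_two_sub,
    ← Real.tan_eq_sin_div_cos, Real.tan_arctan]

theorem arctan_cot {x : ℝ} (h0 : 0 < x) (h1 : x < π) : Real.arctan (Real.cot x) = π / 2 - x := by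
  have : Real.cot x = Real.tan (π / 2 - x) := by
    rw [Real.cot_eq_cos_div_sin, Real.tan_eq_sin_div_cos, Real.cos_pi_div_two_sub,
      Real.sin_pi_div_two_sub]
  rw [this, Real.arctan_tan (by linarith) (by linarith)]

theorem ZZ_interior {K : Set (ℂ × ℝ)} (hK : Body3 K) {a b κ : ℝ} (hκ : 0 < κ)
    (hab : Icc a b ⊆ Hts K) : interior (ZZ K a b κ) = ∅ := by
  classical
  have hpi := Real.pi_pos
  by_contra hne
  obtain ⟨ψ', hψ'⟩ := nonempty_iff_ne_empty.2 hne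
  -- a direction without segments
  obtain ⟨ψ, hψ, hD⟩ : ∃ ψ ∈ interior (ZZ K a b κ), ∀ h ∈ Hts K, NoSeg (sec K h) (ψ 0) := by
    have hcu : Continuous fun s : ℝ => Function.update ψ' 0 s := by fun_prop
    have hopen : IsOpen ((fun s : ℝ => Function.update ψ' 0 s) ⁻¹' interior (ZZ K a b κ)) :=
      isOpen_interior.preimage hcu
    obtain ⟨s, hs, hs'⟩ := (noSeg3_dense hK).inter_open_nonempty _ hopen
      ⟨ψ' 0, by simpa using hψ'⟩
    exact ⟨Function.update ψ' 0 s, hs, by simpa using hs'⟩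
  have hψZ := interior_subset hψ
  obtain ⟨g1, g2, g3, -⟩ := hψZ
  have sn1 : 0 < Real.sin (ψ 1 - ψ 0) := Real.sin_pos_of_pos_of_lt_pi (by linarith) (by linarith)
  have sn2 : 0 < Real.sin (ψ 2 - ψ 0) := Real.sin_pos_of_pos_of_lt_pi (by linarith) (by linarith)
  have sn12 : 0 < Real.sin (ψ 2 - ψ 1) := Real.sin_pos_of_pos_of_lt_pi (by linarith) (by linarith)
  set c1 := Real.cot (ψ 1 - ψ 0) with hc1
  set c2 := Real.cot (ψ 2 - ψ 0) with hc2
  have hDpos : 0 < c1 - c2 := by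
    rw [hc1, hc2, cot_sub_cot sn1 sn2]
    have : ψ 2 - ψ 0 - (ψ 1 - ψ 0) = ψ 2 - ψ 1 := by ring
    rw [this]
    positivity
  set d0 := Real.sqrt (c1 - c2) with hd0
  have hd0sq : d0 ^ 2 = c1 - c2 := Real.sq_sqrt hDpos.le
  let G : ℝ × ℝ → (Fin 3 → ℝ) := fun q =>
    ![ψ 0, q.1, ψ 0 + (π / 2 - Real.arctan (Real.cot (q.1 - ψ 0) - q.2 ^ 2))]
  have hG0 : G (ψ 1, d0) = ψ := by
    funext i
    fin_cases i
    · rfl
    · rfl
    · show ψ 0 + (π / 2 - Real.arctan (Real.cot (ψ 1 - ψ 0) - d0 ^ 2)) = ψ 2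
      rw [hd0sq, ← hc1, show c1 - (c1 - c2) = c2 by ring, hc2,
        arctan_cot (by linarith) (by linarith)]
      ring
  have hGc : ContinuousAt G (ψ 1, d0) := by
    rw [continuousAt_pi]
    intro i
    fin_cases i
    · exact continuousAt_const
    · exact continuousAt_fst
    · show ContinuousAt (fun q : ℝ × ℝ =>
        ψ 0 + (π / 2 - Real.arctan (Real.cot (q.1 - ψ 0) - q.2 ^ 2))) (ψ 1, d0)
      have hcot : ContinuousAt (fun q : ℝ × ℝ => Real.cot (q.1 - ψ 0)) (ψ 1, d0) := by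
        have : (fun q : ℝ × ℝ => Real.cot (q.1 - ψ 0)) =
            fun q : ℝ × ℝ => Real.cos (q.1 - ψ 0) / Real.sin (q.1 - ψ 0) := by
          funext q
          rw [Real.cot_eq_cos_div_sin]
        rw [this]
        refine ContinuousAt.div (by fun_prop) (by fun_prop) sn1.ne'
      have h2 : ContinuousAt (fun q : ℝ × ℝ => Real.arctan (Real.cot (q.1 - ψ 0) - q.2 ^ 2))
          (ψ 1, d0) :=
        Real.continuous_arctan.continuousAt.comp (hcot.sub (by fun_prop))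
      exact continuousAt_const.add (continuousAt_const.sub h2)
  have hU : G ⁻¹' interior (ZZ K a b κ) ∈ 𝓝 (ψ 1, d0) := by
    apply hGc.preimage_mem_nhds
    rw [hG0]
    exact isOpen_interior.mem_nhds hψ
  obtain ⟨δ, hδ, hball⟩ := Metric.mem_nhds_iff.1 hU
  have hGmem : ∀ s d, |s - ψ 1| < δ → |d - d0| < δ → G (s, d) ∈ ZZ K a b κ := by
    intro s d hs hd
    refine interior_subset (hball ?_)
    rw [Metric.mem_ball, Prod.dist_eq, Real.dist_eq, Real.dist_eq]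
    exact max_lt hs hd
  -- heights of critical triangles with first angle ψ 0
  let A : Set ℝ := {h | h ∈ Icc a b ∧ ∃ φ : Fin 3 → ℝ, φ 0 = ψ 0 ∧
    (φ 0 < φ 1 ∧ φ 1 < φ 2 ∧ φ 2 < φ 0 + π) ∧ Crit K φ h}
  let Φ : ℝ → (Fin 3 → ℝ) := fun h =>
    if hh : h ∈ A then Classical.choose hh.2 else 0
  have hΦ : ∀ h ∈ A, Φ h 0 = ψ 0 ∧
      (Φ h 0 < Φ h 1 ∧ Φ h 1 < Φ h 2 ∧ Φ h 2 < Φ h 0 + π) ∧ Crit K (Φ h) h := by
    intro h hh
    simp only [Φ, dif_pos hh]
    exact Classical.choose_spec hh.2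
  obtain ⟨g, hg, hgm⟩ := crit_modulus hK (φ₀ := ψ 0) hab
  have hAsub : A ⊆ Icc a b := fun h hh => hh.1
  obtain ⟨d, hd, hcount⟩ := countable_fiber (A := A)
    (f := fun h => Real.sqrt (Real.cot (Φ h 1 - ψ 0) - Real.cot (Φ h 2 - ψ 0))) (g := g)
    (show d0 < d0 + δ by linarith) (hg.mono hAsub) (fun x hx y hy hxy =>
      hgm x hx.1 y hy.1 hxy (Φ x) (Φ y) (hΦ x hx).1 (hΦ y hy).1 (hΦ x hx).2.1 (hΦ y hy).2.1
        (hΦ x hx).2.2 (hΦ y hy).2.2)
  have hdpos : 0 < d := (Real.sqrt_pos.2 hDpos).trans hd.1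
  have hdδ : |d - d0| < δ := by
    rw [abs_lt]; constructor <;> linarith [hd.1, hd.2]
  have hex : ∀ s : ℝ, |s - ψ 1| < δ → ∃ h ∈ Icc a b, Crit K (G (s, d)) h := fun s hs =>
    (hGmem s d hs hdδ).2.2.2
  have hang : ∀ s : ℝ, |s - ψ 1| < δ → (G (s, d) 0 < G (s, d) 1 ∧ G (s, d) 1 < G (s, d) 2 ∧
      G (s, d) 2 < G (s, d) 0 + π) := fun s hs => by
    obtain ⟨k1, k2, k3, -⟩ := hGmem s d hs hdδ
    exact ⟨by linarith, by linarith, by linarith⟩
  let H : ℝ → ℝ := fun s => if hs : |s - ψ 1| < δ then Classical.choose (hex s hs) else 0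
  have hH : ∀ s, |s - ψ 1| < δ → H s ∈ Icc a b ∧ Crit K (G (s, d)) (H s) := by
    intro s hs
    simp only [H, dif_pos hs]
    exact Classical.choose_spec (hex s hs)
  have hHA : ∀ s, |s - ψ 1| < δ → H s ∈ A := fun s hs =>
    ⟨(hH s hs).1, G (s, d), rfl, hang s hs, (hH s hs).2⟩
  have hsub : MapsTo H (Ioo (ψ 1 - δ) (ψ 1 + δ)) {x ∈ A | Real.sqrt (Real.cot (Φ x 1 - ψ 0) -
      Real.cot (Φ x 2 - ψ 0)) = d} := by
    intro s hs
    have hs : |s - ψ 1| < δ := by rw [abs_lt]; constructor <;> linarith [hs.1, hs.2]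
    refine ⟨hHA s hs, ?_⟩
    have hu := crit_unique hK (hab (hH s hs).1) (φ := Φ (H s)) (φ' := G (s, d))
      (hΦ _ (hHA s hs)).1 (by rw [(hΦ _ (hHA s hs)).1]; exact hD _ (hab (hH s hs).1))
      (hΦ _ (hHA s hs)).2.1 (hang s hs) (hΦ _ (hHA s hs)).2.2 (hH s hs).2
    rw [hu.1, hu.2]
    show Real.sqrt (Real.cot (s - ψ 0) - Real.cot (ψ 0 +
      (π / 2 - Real.arctan (Real.cot (s - ψ 0) - d ^ 2)) - ψ 0)) = d
    rw [add_sub_cancel_left, cot_pi_half_sub, sub_sub_cancel, Real.sqrt_sq hdpos.le]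
  have hinj : InjOn H (Ioo (ψ 1 - δ) (ψ 1 + δ)) := by
    intro s hs s' hs' heq
    have hs : |s - ψ 1| < δ := by rw [abs_lt]; constructor <;> linarith [hs.1, hs.2]
    have hs' : |s' - ψ 1| < δ := by rw [abs_lt]; constructor <;> linarith [hs'.1, hs'.2]
    have hu := crit_unique hK (hab (hH s hs).1) (φ := G (s, d)) (φ' := G (s', d)) rfl
      (hD _ (hab (hH s hs).1)) (hang s hs) (hang s' hs') (hH s hs).2
      (by rw [heq]; exact (hH s' hs').2)
    exact hu.1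
  have hc := hsub.countable_of_injOn hinj hcount
  rw [Cardinal.Real.Ioo_countable_iff] at hc
  linarith

/-- F : assembly -/
theorem crit_meagre {K : Set (ℂ × ℝ)} (hK : Body3 K) :
    ∃ Z : ℕ → Set (Fin 3 → ℝ), (∀ k, IsClosed (Z k)) ∧ (∀ k, interior (Z k) = ∅) ∧
      ∀ φ : Fin 3 → ℝ, φ 0 < φ 1 → φ 1 < φ 2 → φ 2 < φ 0 + π → (∃ h ∈ Hts K, Crit K φ h) →
        ∃ k, φ ∈ Z k := by
  obtain ⟨a, b, hab, hI, -⟩ := Hts_eq hK
  have hk : ∀ k : ℕ, (0 : ℝ) < 1 / (k + 1) := fun k => by positivity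
  have hsub : ∀ k : ℕ, Icc (a + 1 / ((k : ℝ) + 1)) (b - 1 / ((k : ℝ) + 1)) ⊆ Hts K := by
    intro k x hx
    rw [hI]
    have := hk k
    exact ⟨by linarith [hx.1], by linarith [hx.2]⟩
  refine ⟨fun k => ZZ K (a + 1 / ((k : ℝ) + 1)) (b - 1 / ((k : ℝ) + 1)) (1 / ((k : ℝ) + 1)),
    fun k => ZZ_closed hK (hk k) (hsub k), fun k => ZZ_interior hK (hk k) (hsub k), ?_⟩
  rintro φ h01 h12 h20 ⟨h, hh, hc⟩
  rw [hI] at hh
  have hm : 0 < min (min (φ 1 - φ 0) (φ 2 - φ 1)) (min (φ 0 + π - φ 2) (min (h - a) (b - h))) := by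
    simp only [lt_min_iff]
    exact ⟨⟨by linarith, by linarith⟩, by linarith, by linarith [hh.1], by linarith [hh.2]⟩
  obtain ⟨k, hk'⟩ := exists_nat_one_div_lt hm
  simp only [lt_min_iff] at hk'
  obtain ⟨⟨k1, k2⟩, k3, k4, k5⟩ := hk'
  exact ⟨k, by linarith, by linarith, by linarith, h, ⟨by linarith, by linarith⟩, hc⟩

end Pool.Agent.H45.XR
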